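import Pool.Agent.K1H22.SR.Stm

/-! Piece SR-D1 (S_LET): subdivision of the labels into letters. -/

set_option autoImplicit false

namespace Pool.Agent.K1H90.SR

open Pool.Agent.K1H22.SR

section

open Classical in
/-- the transitions -/
noncomputable def trn {T X : Type} (E : Finset (T × FreeGroup X × (ℕ × ℕ) × T)) :
    Finset ((T × List (X × Bool)) × Option (X × Bool) × (ℕ × ℕ) × (T × List (X × Bool))) :=
  E.image (fun e => ((e.1, []), none, e.2.2.1, (e.2.2.2, e.2.1.toWord))) ∪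
    E.biUnion fun e => (e.2.1.toWord.tails).toFinset.biUnion fun l =>
      match l with
      | [] => ∅
      | a :: r => {((e.2.2.2, a :: r), some a, 0, (e.2.2.2, r))}

open Classical in
theorem mem_trn {T X : Type} (E : Finset (T × FreeGroup X × (ℕ × ℕ) × T))
    (x : (T × List (X × Bool)) × Option (X × Bool) × (ℕ × ℕ) × (T × List (X × Bool))) :
    x ∈ trn E ↔ (∃ p g v p', (p, g, v, p') ∈ E ∧ x = ((p, []), none, v, (p', g.toWord))) ∨
      ∃ p g v p' a r, (p, g, v, p') ∈ E ∧ (a :: r) <:+ g.toWord ∧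
        x = ((p', a :: r), some a, 0, (p', r)) := by
  unfold trn
  rw [Finset.mem_union, Finset.mem_image, Finset.mem_biUnion]
  constructor
  · rintro (⟨⟨p, g, v, p'⟩, he, rfl⟩ | ⟨⟨p, g, v, p'⟩, he, hx⟩)
    · exact Or.inl ⟨p, g, v, p', he, rfl⟩
    · rw [Finset.mem_biUnion] at hx
      obtain ⟨l, hl, hx⟩ := hx
      rw [List.mem_toFinset, List.mem_tails] at hl
      cases l with
      | nil => simp at hx
      | cons a r =>
        rw [Finset.mem_singleton] at hx
        exact Or.inr ⟨p, g, v, p', a, r, he, hl, hx⟩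
  · rintro (⟨p, g, v, p', he, rfl⟩ | ⟨p, g, v, p', a, r, he, hl, rfl⟩)
    · exact Or.inl ⟨(p, g, v, p'), he, rfl⟩
    · refine Or.inr ⟨(p, g, v, p'), he, ?_⟩
      rw [Finset.mem_biUnion]
      refine ⟨a :: r, ?_, ?_⟩
      · rw [List.mem_toFinset, List.mem_tails]
        exact hl
      · exact Finset.mem_singleton_self _

open Classical in
theorem fwd {T X : Type} (E : Finset (T × FreeGroup X × (ℕ × ℕ) × T))
    {P Q : T × List (X × Bool)} {l : List (X × Bool)} {v : ℕ × ℕ} (h : Pth (trn E) P Q l v) :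
    Q.2 = [] → ∃ l', l = P.2 ++ l' ∧ GP E P.1 Q.1 (FreeGroup.mk l') v := by
  induction h with
  | nil =>
    intro hQ
    refine ⟨[], ?_, ?_⟩
    · rw [hQ]; rfl
    · rw [← FreeGroup.one_eq_mk]
      exact GP.nil
  | eps hmem hp ih =>
    intro hQ
    obtain ⟨l', h1, h2⟩ := ih hQ
    rcases (mem_trn E _).1 hmem with ⟨p, g, v, p', he, hx⟩ | ⟨p, g, v, p', a, r, he, hl, hx⟩
    · simp only [Prod.mk.injEq] at hx
      obtain ⟨rfl, -, rfl, rfl⟩ := hx
      refine ⟨_, rfl, ?_⟩
      have h3 := GP.cons he h2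
      rw [h1]
      have h4 : FreeGroup.mk (g.toWord ++ l') = g * FreeGroup.mk l' := by
        rw [← FreeGroup.mul_mk, FreeGroup.mk_toWord]
      rw [h4]
      exact h3
    · simp at hx
  | letter hmem hp ih =>
    intro hQ
    obtain ⟨l', h1, h2⟩ := ih hQ
    rcases (mem_trn E _).1 hmem with ⟨p, g, v, p', he, hx⟩ | ⟨p, g, v, p', a, r, he, hl, hx⟩
    · simp at hx
    · simp only [Prod.mk.injEq, Option.some.injEq] at hx
      obtain ⟨rfl, rfl, rfl, rfl⟩ := hx
      refine ⟨l', ?_, ?_⟩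
      · rw [h1]
        rfl
      · rw [zero_add]
        exact h2

open Classical in
theorem row {T X : Type} (E : Finset (T × FreeGroup X × (ℕ × ℕ) × T)) {p p' : T}
    {g : FreeGroup X} {v w : ℕ × ℕ} (he : (p, g, v, p') ∈ E) {Q : T × List (X × Bool)}
    {l : List (X × Bool)} (h : Pth (trn E) (p', []) Q l w) :
    ∀ s : List (X × Bool), s <:+ g.toWord → Pth (trn E) (p', s) Q (s ++ l) w := by
  intro s
  induction s with
  | nil => intro _; exact h
  | cons a r ih =>
    intro hs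
    have h1 := ih ((List.suffix_cons a r).trans hs)
    have h2 : ((p', a :: r), some a, (0 : ℕ × ℕ), (p', r)) ∈ trn E :=
      (mem_trn E _).2 (Or.inr ⟨p, g, v, p', a, r, he, hs, rfl⟩)
    have h3 := Pth.letter h2 h1
    rw [zero_add] at h3
    exact h3

open Classical in
theorem bwd {T X : Type} (E : Finset (T × FreeGroup X × (ℕ × ℕ) × T)) {p q : T}
    {h : FreeGroup X} {v : ℕ × ℕ} (hg : GP E p q h v) :
    ∃ l, Pth (trn E) (p, []) (q, []) l v ∧ FreeGroup.mk l = h := by
  induction hg with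
  | nil => exact ⟨[], Pth.nil, FreeGroup.one_eq_mk.symm⟩
  | @cons p p' q g h v w he hp ih =>
    obtain ⟨l, h1, h2⟩ := ih
    refine ⟨g.toWord ++ l, ?_, ?_⟩
    · refine Pth.eps (p' := (p', g.toWord)) ((mem_trn E _).2 (Or.inl ⟨p, g, v, p', he, rfl⟩)) ?_
      exact row E he h1 g.toWord List.suffix_rfl
    · rw [← FreeGroup.mul_mk, FreeGroup.mk_toWord, h2]

end

theorem t_LET : S_LET := by
  classical
  intro T X E t0
  refine ⟨T × List (X × Bool), trn E, (t0, []), fun v => ⟨?_, ?_⟩⟩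
  · rintro ⟨l, h1, h2⟩
    obtain ⟨l', h3, h4⟩ := fwd E h1 rfl
    rw [show l' = l from h3.symm, h2] at h4
    exact h4
  · exact bwd E

end Pool.Agent.K1H90.SR
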